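import Pool.Agent.MP_c0606f_ag.Mg.Klt_BFinal

namespace Pool.Agent.Results.MP_c0606f_ag.Klt

open Pool.Agent.MP_c0606f_ag.Klt

/-- For every klt Fano variety the log canonical thresholds of `(X ^ N_m, D_m / m)` converge to the
stability threshold. -/
theorem result {K : Type} [Field K] [Algebra ℂ K] {n k r : ℕ} {y : Fin n → K}
    {s : Fin (k + 1) → K} (hX : IsKltFano r y s) (N : ℕ → ℕ)
    (b : ∀ m, Module.Basis (Fin (N m)) ℂ (H0 y s m)) :
    Filter.Tendsto (fun m => lct r y s m fun i => (b m i : K)) Filter.atTop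
      (nhds (delta r y s)) :=
  tendsto_lct hX N b

end Pool.Agent.Results.MP_c0606f_ag.Klt
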